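import Mathlib
import Pool.Agent.Helper18.UW.GoalsR

/-!
# Project UW (MP_d3128a_ag), packet V3s: starts of the virtual play

`GoalV3s` from `GoalV2` and `GoalR6e`.
-/

set_option autoImplicit false

namespace Pool.Agent.Helper69.UW

open Finset
open Pool.Agent.Lead.Sh
open Pool.Agent.Helper43.Hw (T na va lz Play aa ac sc oo sk U Dd Sd Pn nx bb np)
open Pool.Agent.Helper18.EW
open Pool.Agent.Helper18.UW

theorem v3s_aa_succ {m : ℕ → ℕ} {R N : ℕ} {κ x : ℕ → ℕ} (h : UPlay m R N κ x) {y : ℕ}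
    (hy : y + 1 < R) : aa κ x y ≤ aa κ x (y + 1) := by
  have h1 := h.mono y hy
  have h2 := h.inc y hy
  unfold aa
  by_cases hx : 0 < x y
  · rw [if_pos hx]
    rcases h1.lt_or_eq with h3 | h3
    · split_ifs <;> omega
    · have h4 := h2 hx h3.symm
      rw [if_pos (by omega)]
      omega
  · rw [if_neg hx]
    split_ifs <;> omega

theorem v3s_aa_mono {m : ℕ → ℕ} {R N : ℕ} {κ x : ℕ → ℕ} (h : UPlay m R N κ x) {y y' : ℕ}
    (hyy : y ≤ y') (hy : y' < R) : aa κ x y ≤ aa κ x y' := by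
  induction y', hyy using Nat.le_induction with
  | base => exact le_rfl
  | succ n hn ih => exact (ih (by omega)).trans (v3s_aa_succ h hy)

theorem v3s_κ_mono {m : ℕ → ℕ} {R N : ℕ} {κ x : ℕ → ℕ} (h : UPlay m R N κ x) {y y' : ℕ}
    (hyy : y ≤ y') (hy : y' < R) : κ y ≤ κ y' := by
  induction y', hyy using Nat.le_induction with
  | base => exact le_rfl
  | succ n hn ih => exact (ih (by omega)).trans (h.mono n hy)

theorem v3s_lt_ac {m : ℕ → ℕ} {R N : ℕ} {κ x : ℕ → ℕ} (h : UPlay m R N κ x) {c y : ℕ}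
    (hc : y < ac R κ x c) : aa κ x y ≤ c := by
  by_contra hcon
  have hsub : (range R).filter (fun t => aa κ x t ≤ c) ⊆ range y := by
    intro t ht
    rw [mem_filter, mem_range] at ht
    rw [mem_range]
    by_contra ht2
    have := v3s_aa_mono h (not_lt.1 ht2) ht.1
    omega
  have := card_le_card hsub
  rw [card_range] at this
  unfold ac at hc
  omega

theorem v3s_ac_le {m : ℕ → ℕ} {R N : ℕ} {κ x : ℕ → ℕ} (h : UPlay m R N κ x) {c y : ℕ}
    (hy : y < R) (hc : ac R κ x c ≤ y) : c < aa κ x y := by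
  by_contra hcon
  have hsub : range (y + 1) ⊆ (range R).filter (fun t => aa κ x t ≤ c) := by
    intro t ht
    rw [mem_range] at ht
    rw [mem_filter, mem_range]
    refine ⟨by omega, ?_⟩
    have := v3s_aa_mono h (show t ≤ y by omega) hy
    omega
  have := card_le_card hsub
  rw [card_range] at this
  unfold ac at hc
  omega

theorem v3s_ac_le_τ {m : ℕ → ℕ} {R N : ℕ} {κ x : ℕ → ℕ} (h : UPlay m R N κ x) {c τ : ℕ}
    (hc : c < κ τ) : ac R κ x c ≤ τ := by
  have hsub : (range R).filter (fun t => aa κ x t ≤ c) ⊆ range τ := by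
    intro t ht
    rw [mem_filter, mem_range] at ht
    rw [mem_range]
    by_contra ht2
    have h1 := v3s_κ_mono h (not_lt.1 ht2) ht.1
    have h2 : κ t ≤ aa κ x t := by
      unfold aa
      exact Nat.le_add_right _ _
    omega
  have := card_le_card hsub
  rw [card_range] at this
  exact this

theorem v3s_ac_mono (R : ℕ) (κ x : ℕ → ℕ) {c c' : ℕ} (h : c ≤ c') :
    ac R κ x c ≤ ac R κ x c' := by
  unfold ac
  refine card_le_card fun t ht => ?_
  rw [mem_filter] at ht ⊢
  exact ⟨ht.1, ht.2.trans h⟩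

/-- The packet V3s. -/
theorem goalV3s (hV2 : GoalV2) (hR6e : GoalR6e) : GoalV3s := by
  intro m ms M μ δ R N0 N N1 K b l Lg q v lam τ W κ x hSu hBx hVh z z' hz hzz hzτ
  obtain ⟨-, -, h3, -⟩ := hV2 m μ δ R N N1 (κ τ) τ κ x hVh
  rw [h3 z (hzz.trans hzτ), h3 z' hzτ]
  have hτR : τ + 1 + μ ≤ R := hVh.tJ
  have hpl := hVh.play
  set A := (Ico N1 (κ τ)).filter (fun c => ac R κ x c + m c ≤ z + μ) with hA
  set B := (Ico N1 (κ τ)).filter (fun c => ac R κ x c + m c ≤ z' + μ) with hB
  have hAB : A ⊆ B := by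
    intro c hc
    rw [hA, mem_filter] at hc
    rw [hB, mem_filter]
    exact ⟨hc.1, hc.2.trans (by omega)⟩
  have hcard : B.card - A.card = (B \ A).card := (card_sdiff_of_subset hAB).symm
  rw [hcard]
  rcases (B \ A).eq_empty_or_nonempty with he | hne
  · rw [he]
    simp
  · set c1 := (B \ A).min' hne with hc1
    have hc1m : c1 ∈ B \ A := min'_mem _ hne
    have hmem : ∀ c ∈ B \ A, (N1 ≤ c ∧ c < κ τ) ∧ ac R κ x c + m c ≤ z' + μ ∧
        z + μ < ac R κ x c + m c := by
      intro c hc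
      rw [mem_sdiff, hA, hB, mem_filter, mem_filter, mem_Ico] at hc
      refine ⟨hc.1.1, hc.1.2, ?_⟩
      by_contra h5
      exact hc.2 ⟨hc.1.1, not_lt.1 h5⟩
    obtain ⟨⟨h11, h12⟩, h13, h14⟩ := hmem c1 hc1m
    have hgN := hVh.gN
    have hm1 := hVh.main c1 h11 (by omega)
    have hac1 : ac R κ x c1 ≤ τ := v3s_ac_le_τ hpl h12
    -- the two rows
    have hr1 : z + (μ - m c1) < ac R κ x c1 := by omega
    have hsub : B \ A ⊆ Ico (aa κ x (z + (μ - m c1))) (aa κ x (min (z' + (μ - m c1)) τ)) := by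
      intro c hc
      obtain ⟨⟨h21, h22⟩, h23, h24⟩ := hmem c hc
      have h25 : c1 ≤ c := min'_le _ c hc
      have h26 := v3s_ac_mono R κ x h25
      have h27 := hVh.mono c1 c h11 h25 (by omega)
      have h28 := (hVh.main c h21 (by omega)).2
      have h29 := v3s_ac_le_τ hpl h22
      rw [mem_Ico]
      constructor
      · exact v3s_lt_ac hpl (by omega)
      · exact v3s_ac_le hpl (by omega) (by omega)
    have hcl := card_le_card hsub
    rw [Nat.card_Ico] at hcl
    have h6 := hR6e m ms M μ δ R N0 N K b l Lg q v lam τ W κ x hSu hBx (z + (μ - m c1))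
      (min (z' + (μ - m c1)) τ) (by omega) (by omega) (min_le_right _ _)
    have h7 : min (z' + (μ - m c1)) τ - (z + (μ - m c1)) ≤ z' - z := by omega
    calc l * (B \ A).card ≤ l * (aa κ x (min (z' + (μ - m c1)) τ) -
          aa κ x (z + (μ - m c1))) := Nat.mul_le_mul_left _ hcl
      _ ≤ 160 * (min (z' + (μ - m c1)) τ - (z + (μ - m c1))) + 3 * l := h6
      _ ≤ 160 * (z' - z) + 3 * l := by omega

end Pool.Agent.Helper69.UW
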